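import Mathlib
import Pool.Agent.Y701.ZT.Fin

/-!
# The splitting fields of the zeta numerators in a `ℤ_p`-tower contain the cyclotomic subfields of degree
a power of `p`

For every `ℤ_p`-tower of curves `C_n` over a finite field of characteristic `p` with finite ramification
locus and all large `n`, the splitting field `ℚ_{p,n}` of `P(C_n, s)` over `ℚ_p` contains every subfield of
`ℚ_p(μ_{p ^ n})` whose degree over `ℚ_p` is a power of `p` if `p` is odd, and the elements `w + w⁻¹`,
`w ∈ μ_{2 ^ n}`, if `p = 2`. In particular the ramification index `e_n` is divisible by `p ^ (n - 1)`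
(by `2 ^ (n - 2)` if `p = 2`).
-/

open PowerSeries

namespace Pool.Agent.Results.MP_ddfa9a_nt.CyclotomicSubfields

open Pool.Agent.H707R3

open scoped PowerSeries.WithPiTopology in
/-- The zeta function `Z(C, s) = ∏ (1 - s ^ deg x)⁻¹`, product over the closed points `x` of the curve
`C` with function field `K` over `k`. -/
noncomputable def zeta (p : ℕ) [Fact p.Prime] (k K : Type) [Field k] [Field K] [Algebra k K] :
    PowerSeries ℂ_[p] :=
  ∏' x : Place k K, (1 - X ^ x.deg)⁻¹

/-- `A` is the multiset of reciprocal roots of `P(C, s) = Z(C, s) (1 - s) (1 - q s)`, `q` the number of elements of `k`: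
`P(C, s) = ∏ (1 - α s)`, product over `α ∈ A`. -/
def IsRecipRoots (p : ℕ) [Fact p.Prime] (k K : Type) [Field k] [Field K] [Algebra k K]
    (A : Multiset ℂ_[p]) : Prop :=
  zeta p k K * (1 - X) * (1 - C (Nat.card k : ℂ_[p]) * X) = (A.map fun α => 1 - C α * X).prod

/-- For every `ℤ_p`-tower there is `N` such that for `n ≥ N` the zeta function of the layer `C_n` (the
intermediate field `K` with `[K : F] = p ^ n`) has reciprocal roots as above, and the field `ℚ_{p,n}`
they generate contains every subfield `B` of `ℚ_p(μ_{p ^ n})` of degree a power of `p` (if `p` is odd),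
respectively all `w + w⁻¹` with `w ^ 2 ^ n = 1` (if `p = 2`); moreover its ramification index `e_n` is
finite and `p ^ n` divides `p e_n` (respectively `4 e_n` if `p = 2`). -/
theorem result (p : ℕ) [Fact p.Prime] (k F E : Type) [Field k] [Finite k] [CharP k p]
    [Field F] [Algebra k F] [Field E] [Algebra F E] [Algebra k E] [IsScalarTower k F E]
    (h : IsZpTower k F E p) :
    ∃ N : ℕ, ∀ n, N ≤ n → ∀ K : IntermediateField F E, Module.finrank F K = p ^ n →
      (∃ A, IsRecipRoots p k K A) ∧
        ∀ A, IsRecipRoots p k K A →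
          (p ≠ 2 → ∀ B : IntermediateField ℚ_[p] ℂ_[p],
            B ≤ IntermediateField.adjoin ℚ_[p] {w : ℂ_[p] | w ^ p ^ n = 1} →
            (∃ j : ℕ, Module.finrank ℚ_[p] B = p ^ j) →
            B ≤ IntermediateField.adjoin ℚ_[p] {α : ℂ_[p] | α ∈ A}) ∧
          (p = 2 → ∀ w : ℂ_[p], w ^ p ^ n = 1 →
            w + w⁻¹ ∈ IntermediateField.adjoin ℚ_[p] {α : ℂ_[p] | α ∈ A}) ∧
          0 < ramIdx (IntermediateField.adjoin ℚ_[p] {α : ℂ_[p] | α ∈ A}) ∧
          p ^ n ∣ (if p = 2 then 4 else p) *
            ramIdx (IntermediateField.adjoin ℚ_[p] {α : ℂ_[p] | α ∈ A}) := by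
  obtain ⟨N, hN⟩ := Y701.ZT.local_final h
  refine ⟨N, fun n hn K hK => ⟨H387R3.ZT.exists_roots h K n hK, fun A hA => ?_⟩⟩
  obtain ⟨-, h2, h3, h4, h5⟩ := hN n hn K hK A hA
  exact ⟨h4, h5, h2, h3⟩

end Pool.Agent.Results.MP_ddfa9a_nt.CyclotomicSubfields
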